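import Pool.Agent.Helper22.AD.BM
import Pool.Agent.Helper11.AD.A11

/-!
# AD-A11 (MP_fb29e9_nt, all centres): `bad_meas2`
-/

open MeasureTheory Real Set Filter Topology unitInterval

set_option autoImplicit false

namespace Pool.Agent.Helper22.AD

open Pool.Agent.Helper22.AE
open Pool.Agent.Helper22.AC (cntc)

theorem bad_meas2 {H₀ : ℝ → ℝ} (h0 : ContDiff ℝ 2 H₀) (hp : Function.Periodic H₀ (2 * π)) {s : ℕ → ℝ}
    (hs : Summable (fun l : ℕ => (l : ℝ) ^ 2 * |s l|)) {e : ℝ} (he : 0 ≤ e) :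
    MeasurableSet {x : ℕ → I × I | (∀ θ, 0 < Hx H₀ s x θ + deriv (deriv (Hx H₀ s x)) θ) → ∃ C : ℝ, ∀ R : ℝ, 1 ≤ R →
      ∀ c : ℝ × ℝ, |cntc (Hx H₀ s x) c R - area (Hx H₀ s x) * R ^ 2| ≤ C * R ^ e} :=
  bad_meas_of (fun h2 hp hr e he => Pool.Agent.Helper11.AD.rat_red h2 hp hr e he) h0 hp hs he

end Pool.Agent.Helper22.AD
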