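import Pool.Agent.Helper22.AD.A11
import Pool.Agent.Helper22.AE.F2

/-!
# AD-A12 (MP_fb29e9_nt, all centres): the random series, from the finite theorem

As AE-F6: for `L ≥ 10` with `s l ≠ 0` for all `l < L` the bound with `ε_L = 2 / (L - 8) ≤ 1` holds almost surely (`ae_cmb` with `bad_meas2`; for a
fixed tail `Hx_cmb`, the finite theorem `fin` and `head_ae`); then `L = ⌈2/ε + 10⌉₊`.
-/

open MeasureTheory Real Set Filter Topology unitInterval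

set_option autoImplicit false

namespace Pool.Agent.Helper22.AD

open Pool.Agent.Helper22.AE
open Pool.Agent.Helper22.AC (cntc)

theorem main_ser2_of
    (fin : ∀ {ε : ℝ}, 0 < ε → ε ≤ 1 → ∀ {L : ℕ}, 2 / ε + 8 ≤ L → ∀ {H₀ : ℝ → ℝ}, ContDiff ℝ 2 H₀ → Function.Periodic H₀ (2 * π) →
      ∀ᵐ w : (Fin L → ℝ) × (Fin L → ℝ), (∀ θ, 0 < Hw H₀ w θ + deriv (deriv (Hw H₀ w)) θ) → ∃ C : ℝ, ∀ R : ℝ, 1 ≤ R →
        ∀ c : ℝ × ℝ, |cntc (Hw H₀ w) c R - area (Hw H₀ w) * R ^ 2| ≤ C * R ^ (1 / 2 + ε))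
    {H₀ : ℝ → ℝ} (h0 : ContDiff ℝ 2 H₀) (hp : Function.Periodic H₀ (2 * π)) {s : ℕ → ℝ}
    (hs : Summable (fun l : ℕ => (l : ℝ) ^ 2 * |s l|)) :
    ∀ᵐ x ∂(Measure.infinitePi fun _ : ℕ => (volume : Measure (I × I))),
      (∀ θ, 0 < Hx H₀ s x θ + deriv (deriv (Hx H₀ s x)) θ) →
      ∀ ε : ℝ, 0 < ε → (∀ l : ℕ, (l : ℝ) < 2 / ε + 10 → s l ≠ 0) → ∃ C : ℝ, ∀ R : ℝ, 1 ≤ R → ∀ c : ℝ × ℝ,
        |cntc (Hx H₀ s x) c R - area (Hx H₀ s x) * R ^ 2| ≤ C * R ^ (1 / 2 + ε) := by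
  have key : ∀ L : ℕ, 10 ≤ L → (∀ l < L, s l ≠ 0) →
      ∀ᵐ x ∂(Measure.infinitePi fun _ : ℕ => (volume : Measure (I × I))),
        (∀ θ, 0 < Hx H₀ s x θ + deriv (deriv (Hx H₀ s x)) θ) → ∃ C : ℝ, ∀ R : ℝ, 1 ≤ R → ∀ c : ℝ × ℝ,
        |cntc (Hx H₀ s x) c R - area (Hx H₀ s x) * R ^ 2| ≤ C * R ^ (1 / 2 + 2 / ((L : ℝ) - 8)) := by
    intro L hL hsL
    have hL' : (10 : ℝ) ≤ L := by exact_mod_cast hL
    have hL8 : (0 : ℝ) < (L : ℝ) - 8 := by linarith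
    have he : (0 : ℝ) ≤ 1 / 2 + 2 / ((L : ℝ) - 8) := by positivity
    refine ae_cmb L (bad_meas2 h0 hp hs he) ?_
    intro t
    obtain ⟨H₁, h1, h1p, hH⟩ := Hx_cmb h0 hp hs L t
    have hm := fin (ε := 2 / ((L : ℝ) - 8)) (by positivity) (by rw [div_le_one hL8]; linarith) (L := L)
      (by
        have : 2 / (2 / ((L : ℝ) - 8)) = (L : ℝ) - 8 := by field_simp
        rw [this]
        linarith) h1 h1p
    have hh := head_ae (s := fun l : Fin L => s l) (fun l => hsL l l.2) hm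
    filter_upwards [hh] with q hq
    show (∀ θ, 0 < Hx H₀ s (cmb L q t) θ + deriv (deriv (Hx H₀ s (cmb L q t))) θ) → _
    rw [hH q]
    exact hq
  have hall : ∀ᵐ x ∂(Measure.infinitePi fun _ : ℕ => (volume : Measure (I × I))), ∀ L : ℕ, 10 ≤ L → (∀ l < L, s l ≠ 0) →
      (∀ θ, 0 < Hx H₀ s x θ + deriv (deriv (Hx H₀ s x)) θ) → ∃ C : ℝ, ∀ R : ℝ, 1 ≤ R → ∀ c : ℝ × ℝ,
        |cntc (Hx H₀ s x) c R - area (Hx H₀ s x) * R ^ 2| ≤ C * R ^ (1 / 2 + 2 / ((L : ℝ) - 8)) := by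
    rw [ae_all_iff]
    intro L
    by_cases h1 : 10 ≤ L
    · by_cases h2 : ∀ l < L, s l ≠ 0
      · filter_upwards [key L h1 h2] with x hx _ _
        exact hx
      · filter_upwards with x _ h
        exact absurd h h2
    · filter_upwards with x h
      exact absurd h h1
  filter_upwards [hall] with x hx hsupp ε hε hne
  have hc : 2 / ε + 10 ≤ (⌈2 / ε + 10⌉₊ : ℝ) := Nat.le_ceil _
  have hpos : 0 < 2 / ε := by positivity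
  have hL10 : 10 ≤ ⌈2 / ε + 10⌉₊ := by
    have : (10 : ℝ) ≤ (⌈2 / ε + 10⌉₊ : ℝ) := by linarith
    exact_mod_cast this
  obtain ⟨C, hC⟩ := hx ⌈2 / ε + 10⌉₊ hL10 (fun l hl => hne l (Nat.lt_ceil.mp hl)) hsupp
  refine ⟨|C|, fun R hR c => (hC R hR c).trans ?_⟩
  have hR0 : 0 < R := by linarith
  have h1 : C * R ^ (1 / 2 + 2 / ((⌈2 / ε + 10⌉₊ : ℝ) - 8)) ≤ |C| * R ^ (1 / 2 + 2 / ((⌈2 / ε + 10⌉₊ : ℝ) - 8)) :=
    mul_le_mul_of_nonneg_right (le_abs_self C) (Real.rpow_nonneg hR0.le _)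
  refine h1.trans (mul_le_mul_of_nonneg_left ?_ (abs_nonneg C))
  apply Real.rpow_le_rpow_of_exponent_le hR
  have h2 : 2 / ((⌈2 / ε + 10⌉₊ : ℝ) - 8) ≤ ε := by
    rw [div_le_iff₀ (by linarith)]
    have h3 : ε * (2 / ε) = 2 := by field_simp
    nlinarith
  linarith

end Pool.Agent.Helper22.AD
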