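import Pool.Agent.Helper22.AE.F3
import Pool.Agent.Helper22.AC.Defs

/-!
# AD-A11 (MP_fb29e9_nt, all centres): measurability of the exceptional set

`cntc_meas`: for a fixed centre and a fixed radius the number of lattice points is a measurable function of the series. `rho_meas`: the set of
the series with positive radius of curvature is open. `bad_meas2` from `rat_red` (given as a hypothesis): countable unions and intersections.
-/

open MeasureTheory Real Set Filter Topology unitInterval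

set_option autoImplicit false

namespace Pool.Agent.Helper22.AD

open Pool.Agent.Helper22.AE
open Pool.Agent.Helper22.AC (cntc)

private lemma bm_pos_open {F : (ℕ → I × I) × ℝ → ℝ} (hF : Continuous F)
    (hp : ∀ x θ, F (x, θ + 2 * π) = F (x, θ)) : IsOpen {x : ℕ → I × I | ∀ θ, 0 < F (x, θ)} := by
  have hK : IsCompact (((univ : Set (ℕ → I × I)) ×ˢ Icc (0 : ℝ) (2 * π)) ∩ {q | F q ≤ 0}) :=
    (isCompact_univ.prod isCompact_Icc).inter_right (isClosed_le hF continuous_const)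
  have hcl : IsClosed (Prod.fst '' (((univ : Set (ℕ → I × I)) ×ˢ Icc (0 : ℝ) (2 * π)) ∩ {q | F q ≤ 0})) :=
    (hK.image continuous_fst).isClosed
  have he : {x : ℕ → I × I | ∀ θ, 0 < F (x, θ)} =
      (Prod.fst '' (((univ : Set (ℕ → I × I)) ×ˢ Icc (0 : ℝ) (2 * π)) ∩ {q | F q ≤ 0}))ᶜ := by
    ext x
    simp only [mem_ofPred_eq, mem_compl_iff, mem_image, mem_inter_iff, mem_prod, mem_univ, true_and,
      Prod.exists, exists_and_right, exists_eq_right, not_exists, not_and, not_le]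
    constructor
    · intro h θ _
      exact h θ
    · intro h θ
      have hper : Function.Periodic (fun θ => F (x, θ)) (2 * π) := fun θ => hp x θ
      obtain ⟨y, hy, hy'⟩ := hper.exists_mem_Ico₀ (by positivity) θ
      rw [hy']
      exact h y ⟨hy.1, hy.2.le⟩
  rw [he]
  exact hcl.isOpen_compl

theorem rho_meas {H₀ : ℝ → ℝ} (h0 : ContDiff ℝ 2 H₀) (hp : Function.Periodic H₀ (2 * π)) {s : ℕ → ℝ}
    (hs : Summable (fun l : ℕ => (l : ℝ) ^ 2 * |s l|)) :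
    MeasurableSet {x : ℕ → I × I | ∀ θ, 0 < Hx H₀ s x θ + deriv (deriv (Hx H₀ s x)) θ} := by
  have hper := fun x => Hx_per hp s x
  have hd : ∀ x, Function.Periodic (deriv (deriv (Hx H₀ s x))) (2 * π) := by
    intro x
    have h1 : Function.Periodic (deriv (Hx H₀ s x)) (2 * π) := by
      intro θ
      rw [← deriv_comp_add_const]
      congr 1
      funext y
      exact hper x y
    intro θ
    rw [← deriv_comp_add_const]
    congr 1
    funext y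
    exact h1 y
  have h2 : IsOpen {x : ℕ → I × I | ∀ θ, 0 < Hx H₀ s x θ + deriv (deriv (Hx H₀ s x)) θ} :=
    bm_pos_open (F := fun q : (ℕ → I × I) × ℝ => Hx H₀ s q.1 q.2 + deriv (deriv (Hx H₀ s q.1)) q.2)
      (Hx_rho_cont h0 hs) (fun x θ => by
        have e1 := hper x θ
        have e2 := hd x θ
        simp only
        rw [e1, e2])
  exact h2.measurableSet

private lemma bm_bound {F : (ℕ → I × I) × ℝ → ℝ} (hF : Continuous F)
    (hp : ∀ x θ, F (x, θ + 2 * π) = F (x, θ)) : ∃ N : ℕ, ∀ x θ, |F (x, θ)| ≤ N := by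
  obtain ⟨C, hC⟩ := (isCompact_univ.prod isCompact_Icc :
    IsCompact ((univ : Set (ℕ → I × I)) ×ˢ Icc (0 : ℝ) (2 * π))).exists_bound_of_continuousOn hF.continuousOn
  obtain ⟨N, hN⟩ := exists_nat_ge C
  refine ⟨N, fun x θ => ?_⟩
  have hper : Function.Periodic (fun θ => F (x, θ)) (2 * π) := fun θ => hp x θ
  obtain ⟨y, hy, hy'⟩ := hper.exists_mem_Ico₀ (by positivity) θ
  rw [hy']
  have := hC (x, y) ⟨mem_univ _, hy.1, hy.2.le⟩
  rw [Real.norm_eq_abs] at this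
  exact this.trans hN

private lemma bm_box {G : ℝ → ℝ} {N : ℕ} (hG : ∀ θ, |G θ| ≤ N) {k : ℤ × ℤ}
    (hk : ∀ θ : ℝ, (k.1 : ℝ) * cos θ + (k.2 : ℝ) * sin θ ≤ G θ) : k ∈ box N := by
  have a1 := (hk 0).trans ((le_abs_self _).trans (hG 0))
  have a2 := (hk π).trans ((le_abs_self _).trans (hG π))
  have a3 := (hk (π / 2)).trans ((le_abs_self _).trans (hG (π / 2)))
  have a4 := (hk (-(π / 2))).trans ((le_abs_self _).trans (hG (-(π / 2))))
  simp only [cos_zero, sin_zero, mul_one, mul_zero, add_zero, zero_add, cos_pi, sin_pi, cos_pi_div_two,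
    sin_pi_div_two, cos_neg, sin_neg, mul_neg] at a1 a2 a3 a4
  simp only [box, Finset.mem_product, Finset.mem_Icc]
  refine ⟨⟨?_, ?_⟩, ?_, ?_⟩
  · have : -(N : ℝ) ≤ (k.1 : ℝ) := by linarith
    exact_mod_cast this
  · exact_mod_cast a1
  · have : -(N : ℝ) ≤ (k.2 : ℝ) := by linarith
    exact_mod_cast this
  · exact_mod_cast a3

theorem cntc_meas {H₀ : ℝ → ℝ} (h0 : ContDiff ℝ 2 H₀) (hp : Function.Periodic H₀ (2 * π)) {s : ℕ → ℝ}
    (hs : Summable (fun l : ℕ => (l : ℝ) ^ 2 * |s l|)) (c : ℝ × ℝ) (R : ℝ) :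
    Measurable (fun x : ℕ → I × I => cntc (Hx H₀ s x) c R) := by
  classical
  have hcont := Hx_cont h0 hs
  have hF : Continuous (fun q : (ℕ → I × I) × ℝ => R * Hx H₀ s q.1 q.2 + (c.1 * cos q.2 + c.2 * sin q.2)) := by
    refine (continuous_const.mul hcont).add ?_
    fun_prop
  obtain ⟨N, hN⟩ := bm_bound hF (fun x θ => by
      have := Hx_per hp s x θ
      simp only
      rw [this, cos_add_two_pi, sin_add_two_pi])
  simp only at hN
  have hiff : ∀ (x : ℕ → I × I) (k : ℤ × ℤ),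
      (∀ θ : ℝ, ((k.1 : ℝ) - c.1) * cos θ + ((k.2 : ℝ) - c.2) * sin θ ≤ R * Hx H₀ s x θ) ↔
      (∀ θ : ℝ, (k.1 : ℝ) * cos θ + (k.2 : ℝ) * sin θ ≤ R * Hx H₀ s x θ + (c.1 * cos θ + c.2 * sin θ)) := by
    intro x k
    refine forall_congr' fun θ => ?_
    constructor <;> intro h <;> linarith
  have hcnt : ∀ x : ℕ → I × I, cntc (Hx H₀ s x) c R = ∑ k ∈ box N,
      (if (∀ θ : ℝ, ((k.1 : ℝ) - c.1) * cos θ + ((k.2 : ℝ) - c.2) * sin θ ≤ R * Hx H₀ s x θ) then (1 : ℝ) else 0) := by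
    intro x
    unfold cntc
    rw [Nat.subtype_card ((box N).filter fun k : ℤ × ℤ =>
      ∀ θ : ℝ, ((k.1 : ℝ) - c.1) * cos θ + ((k.2 : ℝ) - c.2) * sin θ ≤ R * Hx H₀ s x θ)]
    · rw [Finset.sum_boole]
    · intro k
      rw [Finset.mem_filter]
      exact ⟨fun h => h.2, fun h => ⟨bm_box (G := fun θ => R * Hx H₀ s x θ + (c.1 * cos θ + c.2 * sin θ)) (hN x)
        ((hiff x k).1 h), h⟩⟩
  simp_rw [hcnt]
  refine Finset.measurable_sum _ fun k _ => ?_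
  refine Measurable.ite ?_ measurable_const measurable_const
  have hc : {x : ℕ → I × I | ∀ θ : ℝ, ((k.1 : ℝ) - c.1) * cos θ + ((k.2 : ℝ) - c.2) * sin θ ≤ R * Hx H₀ s x θ} =
      ⋂ θ : ℝ, {x : ℕ → I × I | ((k.1 : ℝ) - c.1) * cos θ + ((k.2 : ℝ) - c.2) * sin θ ≤ R * Hx H₀ s x θ} := by
    ext x
    simp
  rw [hc]
  refine (isClosed_iInter fun θ => ?_).measurableSet
  refine isClosed_le continuous_const (continuous_const.mul ?_)
  exact hcont.comp (continuous_id.prodMk continuous_const)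

/-- the exceptional set is measurable -/
theorem bad_meas_of
    (rat : ∀ {H : ℝ → ℝ}, ContDiff ℝ 2 H → Function.Periodic H (2 * π) → (∀ θ, 0 < H θ + deriv (deriv H) θ) →
      ∀ e : ℝ, 0 ≤ e →
      ((∃ C : ℝ, ∀ R : ℝ, 1 ≤ R → ∀ c : ℝ × ℝ, |cntc H c R - area H * R ^ 2| ≤ C * R ^ e) ↔
      (∃ C : ℕ, ∀ R : ℚ, 1 ≤ R → ∀ c : ℚ × ℚ, |cntc H ((c.1 : ℝ), (c.2 : ℝ)) (R : ℝ) - area H * (R : ℝ) ^ 2| ≤ C * (R : ℝ) ^ e)))
    {H₀ : ℝ → ℝ} (h0 : ContDiff ℝ 2 H₀) (hp : Function.Periodic H₀ (2 * π)) {s : ℕ → ℝ}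
    (hs : Summable (fun l : ℕ => (l : ℝ) ^ 2 * |s l|)) {e : ℝ} (he : 0 ≤ e) :
    MeasurableSet {x : ℕ → I × I | (∀ θ, 0 < Hx H₀ s x θ + deriv (deriv (Hx H₀ s x)) θ) → ∃ C : ℝ, ∀ R : ℝ, 1 ≤ R →
      ∀ c : ℝ × ℝ, |cntc (Hx H₀ s x) c R - area (Hx H₀ s x) * R ^ 2| ≤ C * R ^ e} := by
  have hS := rho_meas h0 hp hs
  have hB : MeasurableSet {x : ℕ → I × I | ∃ C : ℕ, ∀ R : ℚ, 1 ≤ R → ∀ c : ℚ × ℚ,
      |cntc (Hx H₀ s x) ((c.1 : ℝ), (c.2 : ℝ)) (R : ℝ) - area (Hx H₀ s x) * (R : ℝ) ^ 2| ≤ C * (R : ℝ) ^ e} := by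
    have hset : {x : ℕ → I × I | ∃ C : ℕ, ∀ R : ℚ, 1 ≤ R → ∀ c : ℚ × ℚ,
        |cntc (Hx H₀ s x) ((c.1 : ℝ), (c.2 : ℝ)) (R : ℝ) - area (Hx H₀ s x) * (R : ℝ) ^ 2| ≤ C * (R : ℝ) ^ e} =
        ⋃ C : ℕ, ⋂ R : ℚ, ⋂ _ : 1 ≤ R, ⋂ c : ℚ × ℚ, {x : ℕ → I × I |
        |cntc (Hx H₀ s x) ((c.1 : ℝ), (c.2 : ℝ)) (R : ℝ) - area (Hx H₀ s x) * (R : ℝ) ^ 2| ≤ C * (R : ℝ) ^ e} := by
      ext x
      simp only [mem_ofPred_eq, mem_iUnion, mem_iInter]
    rw [hset]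
    refine MeasurableSet.iUnion fun C => MeasurableSet.iInter fun R => MeasurableSet.iInter fun _ =>
      MeasurableSet.iInter fun c => measurableSet_le ?_ measurable_const
    exact continuous_abs.measurable.comp ((cntc_meas h0 hp hs _ _).sub ((area_meas h0 hs).mul_const _))
  have hset : {x : ℕ → I × I | (∀ θ, 0 < Hx H₀ s x θ + deriv (deriv (Hx H₀ s x)) θ) → ∃ C : ℝ, ∀ R : ℝ, 1 ≤ R →
      ∀ c : ℝ × ℝ, |cntc (Hx H₀ s x) c R - area (Hx H₀ s x) * R ^ 2| ≤ C * R ^ e} =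
      {x : ℕ → I × I | ∀ θ, 0 < Hx H₀ s x θ + deriv (deriv (Hx H₀ s x)) θ}ᶜ ∪
      {x : ℕ → I × I | ∃ C : ℕ, ∀ R : ℚ, 1 ≤ R → ∀ c : ℚ × ℚ,
        |cntc (Hx H₀ s x) ((c.1 : ℝ), (c.2 : ℝ)) (R : ℝ) - area (Hx H₀ s x) * (R : ℝ) ^ 2| ≤ C * (R : ℝ) ^ e} := by
    ext x
    by_cases hx : ∀ θ, 0 < Hx H₀ s x θ + deriv (deriv (Hx H₀ s x)) θ
    · have h1 := rat (Hx_smooth h0 hs x) (Hx_per hp s x) hx e he
      constructor
      · intro h
        exact Or.inr (h1.1 (h hx))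
      · rintro (h | h)
        · exact absurd hx h
        · exact fun _ => h1.2 h
    · constructor
      · intro _
        exact Or.inl hx
      · intro _ h
        exact absurd h hx
  rw [hset]
  exact hS.compl.union hB

end Pool.Agent.Helper22.AD
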