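import Pool.Agent.Helper60.AD.Defs
import Pool.Agent.Helper22.AE.E0
import Pool.Agent.Helper22.AC.Defs

/-!
# AD (MP_fb29e9_nt, all centres): the finite theorem from `key2`, `types2`, `sum_blocks` (Borel-Cantelli)

For `R₀ = 2^N`, a block `n + r` with `R₀^ε ≤ 2^(n+r) ≤ R₀^(1/2+e2)`, a type `i` and `r < 2` take the exceptional set of `key2` with
`β = (R₀ 2^n)^(-1/2) ≤ 2 (R₀ 2^(n+r))^(-1/2)`. The union `bad N` has measure `≤ (N+1) 2 nT C (2^(-ε e1))^N`, which is summable.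
-/

open MeasureTheory Real Set Filter Topology

set_option autoImplicit false

namespace Pool.Agent.Helper22.AD

open Pool.Agent.Helper22.AE
open Pool.Agent.Helper22.AC (cntc)
open Pool.Agent.Helper92.GC (dt sqa)
open Pool.Agent.Helper60.AD (Sc)

private lemma fin_pow (x : ℝ) : ∃ n : ℕ, x ≤ 2 ^ n := by
  obtain ⟨n, hn⟩ := pow_unbounded_of_one_lt x one_lt_two
  exact ⟨n, hn.le⟩

private lemma fin_bc {α : Type*} [MeasurableSpace α] {μ : Measure α} [IsFiniteMeasure μ] (s : ℕ → Set α) (b : ℕ → ℝ)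
    (hb : Summable b) (h : ∀ N, μ.real (s N) ≤ b N) : ∀ᵐ x ∂μ, ∀ᶠ N in atTop, x ∉ s N := by
  have h1 : ∑' N, μ (s N) ≠ ⊤ := by
    have h2 : ∑' N, μ (s N) ≤ ∑' N, ENNReal.ofReal (b N) := by
      apply ENNReal.tsum_le_tsum
      intro N
      rw [← ofReal_measureReal]
      exact ENNReal.ofReal_le_ofReal (h N)
    refine ne_top_of_le_ne_top ?_ h2
    exact hb.tsum_ofReal_ne_top
  exact ae_eventually_notMem h1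

private lemma fin_summable {q : ℝ} (hq : 0 ≤ q) (hq1 : q < 1) (A : ℝ) : Summable (fun N : ℕ => ((N : ℝ) + 1) * (A * q ^ N)) := by
  have h1 : Summable (fun N : ℕ => ((N : ℝ) ^ 1 * q ^ N : ℝ)) :=
    summable_pow_mul_geometric_of_norm_lt_one 1 (by rw [Real.norm_of_nonneg hq]; exact hq1)
  have h2 : Summable (fun N : ℕ => q ^ N) := summable_geometric_of_lt_one hq hq1
  have h3 := (h1.add h2).mul_left A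
  refine h3.congr (fun N => ?_)
  ring

/-- the condition on the block -/
private def okb (ε e2 : ℝ) (N n : ℕ) (r : Fin 2) : Prop :=
  ((2 : ℝ) ^ N) ^ ε ≤ (2 : ℝ) ^ (n + (r : ℕ)) ∧ (2 : ℝ) ^ (n + (r : ℕ)) ≤ ((2 : ℝ) ^ N) ^ (1 / 2 + e2)

private lemma beta_le (N n : ℕ) (r : Fin 2) :
    ((2 : ℝ) ^ N * 2 ^ n) ^ (-(1 / 2) : ℝ) ≤ 2 * ((2 : ℝ) ^ N * 2 ^ (n + (r : ℕ))) ^ (-(1 / 2) : ℝ) := by
  have hA : (0 : ℝ) < 2 ^ N * 2 ^ n := by positivity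
  have hr : (2 : ℝ) ^ (r : ℕ) ≤ 2 := by
    have : (r : ℕ) ≤ 1 := by omega
    calc (2 : ℝ) ^ (r : ℕ) ≤ 2 ^ 1 := pow_le_pow_right₀ (by norm_num) this
      _ = 2 := by norm_num
  have hr0 : (0 : ℝ) < (2 : ℝ) ^ (r : ℕ) := by positivity
  have e : (2 : ℝ) ^ N * 2 ^ (n + (r : ℕ)) = (2 ^ N * 2 ^ n) * 2 ^ (r : ℕ) := by rw [pow_add]; ring
  rw [e, Real.mul_rpow hA.le hr0.le]
  have h1 : (2 : ℝ)⁻¹ ≤ ((2 : ℝ) ^ (r : ℕ)) ^ (-(1 / 2) : ℝ) := by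
    have h2 : (4 : ℝ) ^ (-(1 / 2) : ℝ) = 2⁻¹ := by
      rw [Real.rpow_neg (by norm_num), show (4 : ℝ) = 2 ^ (2 : ℝ) by norm_num, ← Real.rpow_mul (by norm_num)]
      norm_num
    rw [← h2]
    exact Real.rpow_le_rpow_of_nonpos hr0 (hr.trans (by norm_num)) (by norm_num)
  have h3 : 0 < ((2 : ℝ) ^ N * 2 ^ n) ^ (-(1 / 2) : ℝ) := Real.rpow_pos_of_pos hA _
  nlinarith

theorem main_fin2_of
    (key2 : ∀ {ε e1 : ℝ}, 0 < ε → ε ≤ 1 → 0 < e1 → e1 ≤ 1 → ∀ {L : ℕ}, 2 / ε + 8 ≤ L → ∀ {H₀ : ℝ → ℝ}, ContDiff ℝ 2 H₀ →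
      Function.Periodic H₀ (2 * π) → ∀ Bd : ℝ,
      ∃ (e2 C R₁ : ℝ), 0 < e2 ∧ e2 ≤ 1 / 4 ∧ 0 < C ∧ 1 ≤ R₁ ∧ ∀ R₀ : ℝ, R₁ ≤ R₀ → ∀ n : ℕ,
      R₀ ^ ε ≤ (2 : ℝ) ^ n → (2 : ℝ) ^ n ≤ R₀ ^ (1 / 2 + e2) → ∀ β : ℝ, 0 < β → β ≤ 2 * (R₀ * 2 ^ n) ^ (-(1 / 2) : ℝ) →
      ∀ b : ℝ → ℤ × ℤ → ℂ, (∀ k, Continuous (fun α => b α k)) → (∀ α k, ‖b α k‖ ≤ 1) →
        ∃ E : Set ((Fin L → ℝ) × (Fin L → ℝ)), (gm L).real E ≤ C * ((2 : ℝ) ^ n) ^ (-e1) ∧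
          ∀ w ∉ E, ‖w‖ ≤ Bd → ∀ R ∈ Icc (R₀ / 2) (4 * R₀), ∀ c : ℝ × ℝ,
            ∫ α in Icc (-π) π ∩ {α | 1 / 2 ≤ |cos α|}, k0 β α * ‖Sc (Hw H₀ w) (blk n) (b α) R α c‖ ≤
              ((2 : ℝ) ^ n) ^ (3 / 2 + e1))
    (types2 : ∀ (L : ℕ) {H₀ : ℝ → ℝ}, ContDiff ℝ 2 H₀ → Function.Periodic H₀ (2 * π) → ∀ Bd : ℝ,
      ∃ (nT : ℕ) (C : ℝ), 0 ≤ C ∧ ∀ n : ℕ, ∃ b : Fin nT → ℝ → ℤ × ℤ → ℂ, (∀ i k, Continuous (fun α => b i α k)) ∧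
      (∀ i α k, ‖b i α k‖ ≤ 1) ∧ ∀ w : (Fin L → ℝ) × (Fin L → ℝ), ‖w‖ ≤ Bd → ∀ (p : ℝ × ℝ) (R₀ R : ℝ), 1 ≤ R₀ →
        R ∈ Icc (R₀ / 2) (4 * R₀) → IsSupp (fun θ => R * (Hw H₀ w θ - (p.1 * cos θ + p.2 * sin θ))) → ∀ c : ℝ × ℝ, ∃ c' : ℝ × ℝ,
          ‖∑ k ∈ sqa (2 ^ n), ft (fun θ => R * (Hw H₀ w θ - (p.1 * cos θ + p.2 * sin θ))) k * ee (dt k c)‖ ≤
            C * R₀ ^ (1 / 2 : ℝ) * ((2 : ℝ) ^ n) ^ (-(3 / 2) : ℝ) * (∑ i, ∑ r ∈ Finset.range 2,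
              ∫ α in Icc (-π) π ∩ {α | 1 / 2 ≤ |cos α|}, k0 ((R₀ * 2 ^ n) ^ (-(1 / 2) : ℝ)) α *
                ‖Sc (Hw H₀ w) (blk (n + r)) (b i α) R α c'‖) + C)
    (sum_blocks : ∀ {L : ℕ} {H₀ : ℝ → ℝ}, ContDiff ℝ 2 H₀ → Function.Periodic H₀ (2 * π) → ∀ {ε e1 e2 : ℝ}, 0 < ε →
      ε ≤ 1 → 0 < e1 → 4 * e1 ≤ ε → 0 < e2 → e2 ≤ 1 / 4 → ∀ {nT : ℕ} {C : ℝ}, 0 ≤ C →
      ∀ (b : ℕ → Fin nT → ℝ → ℤ × ℤ → ℂ), (∀ n i α k, ‖b n i α k‖ ≤ 1) → (∀ n i k, Continuous (fun α => b n i α k)) →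
      ∀ (w : (Fin L → ℝ) × (Fin L → ℝ)), (∀ θ, 0 < Hw H₀ w θ + deriv (deriv (Hw H₀ w)) θ) →
      (∀ (n : ℕ) (p : ℝ × ℝ) (R₀ R : ℝ), 1 ≤ R₀ →
        R ∈ Icc (R₀ / 2) (4 * R₀) → IsSupp (fun θ => R * (Hw H₀ w θ - (p.1 * cos θ + p.2 * sin θ))) → ∀ c : ℝ × ℝ, ∃ c' : ℝ × ℝ,
          ‖∑ k ∈ sqa (2 ^ n), ft (fun θ => R * (Hw H₀ w θ - (p.1 * cos θ + p.2 * sin θ))) k * ee (dt k c)‖ ≤
            C * R₀ ^ (1 / 2 : ℝ) * ((2 : ℝ) ^ n) ^ (-(3 / 2) : ℝ) * (∑ i, ∑ r ∈ Finset.range 2,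
              ∫ α in Icc (-π) π ∩ {α | 1 / 2 ≤ |cos α|}, k0 ((R₀ * 2 ^ n) ^ (-(1 / 2) : ℝ)) α *
                ‖Sc (Hw H₀ w) (blk (n + r)) (b n i α) R α c'‖) + C) →
      ∀ {N₁ : ℕ}, (∀ N : ℕ, N₁ ≤ N → ∀ n : ℕ, ∀ i, ∀ r < 2, ((2 : ℝ) ^ N) ^ ε ≤ (2 : ℝ) ^ (n + r) →
      (2 : ℝ) ^ (n + r) ≤ ((2 : ℝ) ^ N) ^ (1 / 2 + e2) → ∀ R ∈ Icc ((2 : ℝ) ^ N / 2) (4 * 2 ^ N), ∀ c : ℝ × ℝ,
        ∫ α in Icc (-π) π ∩ {α | 1 / 2 ≤ |cos α|}, k0 (((2 : ℝ) ^ N * 2 ^ n) ^ (-(1 / 2) : ℝ)) α *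
          ‖Sc (Hw H₀ w) (blk (n + r)) (b n i α) R α c‖ ≤ ((2 : ℝ) ^ (n + r)) ^ (3 / 2 + e1)) →
      ∃ C' : ℝ, ∀ R : ℝ, 1 ≤ R → ∀ c : ℝ × ℝ,
        |cntc (Hw H₀ w) c R - area (Hw H₀ w) * R ^ 2| ≤ C' * R ^ (1 / 2 + ε))
    {ε : ℝ} (hε : 0 < ε) (hε1 : ε ≤ 1) {L : ℕ} (hL : 2 / ε + 8 ≤ L) {H₀ : ℝ → ℝ}
    (h0 : ContDiff ℝ 2 H₀) (hp : Function.Periodic H₀ (2 * π)) :
    ∀ᵐ w : (Fin L → ℝ) × (Fin L → ℝ), (∀ θ, 0 < Hw H₀ w θ + deriv (deriv (Hw H₀ w)) θ) → ∃ C : ℝ, ∀ R : ℝ, 1 ≤ R →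
      ∀ c : ℝ × ℝ, |cntc (Hw H₀ w) c R - area (Hw H₀ w) * R ^ 2| ≤ C * R ^ (1 / 2 + ε) := by
  classical
  have hfin : IsFiniteMeasure (gm L) := ⟨by rw [gm_univ]; exact ENNReal.one_lt_top⟩
  apply (vol_ac L).ae_le
  have hmain : ∀ Bd : ℕ, ∀ᵐ w ∂(gm L), ‖w‖ ≤ Bd → (∀ θ, 0 < Hw H₀ w θ + deriv (deriv (Hw H₀ w)) θ) → ∃ C : ℝ, ∀ R : ℝ, 1 ≤ R →
      ∀ c : ℝ × ℝ, |cntc (Hw H₀ w) c R - area (Hw H₀ w) * R ^ 2| ≤ C * R ^ (1 / 2 + ε) := by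
    intro Bd
    have he1 : 0 < ε / 4 := by positivity
    obtain ⟨e2, C, R₁, he2, he2', hC, hR₁, hkey⟩ := key2 hε hε1 he1 (by linarith) hL h0 hp (Bd : ℝ)
    obtain ⟨nT, Ct, hCt, hty⟩ := types2 L h0 hp (Bd : ℝ)
    choose b hbc hb1 hbt using hty
    obtain ⟨N₀, hN₀⟩ := fin_pow R₁
    have hex : ∀ (N n : ℕ) (i : Fin nT) (r : Fin 2), ∃ E : Set ((Fin L → ℝ) × (Fin L → ℝ)),
        (gm L).real E ≤ C * ((2 : ℝ) ^ (-(ε * (ε / 4)))) ^ N ∧ (N₀ ≤ N → okb ε e2 N n r → ∀ w ∉ E, ‖w‖ ≤ Bd →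
          ∀ R ∈ Icc ((2 : ℝ) ^ N / 2) (4 * 2 ^ N), ∀ c : ℝ × ℝ,
          ∫ α in Icc (-π) π ∩ {α | 1 / 2 ≤ |cos α|}, k0 (((2 : ℝ) ^ N * 2 ^ n) ^ (-(1 / 2) : ℝ)) α *
            ‖Sc (Hw H₀ w) (blk (n + (r : ℕ))) (b n i α) R α c‖ ≤ ((2 : ℝ) ^ (n + (r : ℕ))) ^ (3 / 2 + ε / 4)) := by
      intro N n i r
      by_cases h : N₀ ≤ N ∧ okb ε e2 N n r
      · obtain ⟨hN, h1, h2⟩ := h
        obtain ⟨E, hE1, hE2⟩ := hkey (2 ^ N) (hN₀.trans (pow_le_pow_right₀ (by norm_num) hN)) (n + (r : ℕ)) h1 h2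
          (((2 : ℝ) ^ N * 2 ^ n) ^ (-(1 / 2) : ℝ)) (by positivity) (beta_le N n r) (b n i) (hbc n i) (hb1 n i)
        refine ⟨E, hE1.trans (mul_le_mul_of_nonneg_left ?_ hC.le), fun _ _ => hE2⟩
        have e1 : ((2 : ℝ) ^ (-(ε * (ε / 4)))) ^ N = (((2 : ℝ) ^ N) ^ ε) ^ (-(ε / 4)) := by
          rw [← Real.rpow_natCast ((2 : ℝ) ^ (-(ε * (ε / 4)))) N, ← Real.rpow_mul (by norm_num), ← Real.rpow_natCast 2 N,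
            ← Real.rpow_mul (by norm_num), ← Real.rpow_mul (by norm_num)]
          congr 1
          ring
        rw [e1]
        exact Real.rpow_le_rpow_of_nonpos (by positivity) h1 (by linarith)
      · refine ⟨∅, ?_, fun h1 h2 => absurd ⟨h1, h2⟩ h⟩
        rw [measureReal_empty]
        positivity
    choose E hE1 hE2 using hex
    set bad : ℕ → Set ((Fin L → ℝ) × (Fin L → ℝ)) := fun N =>
      ⋃ n ∈ Finset.range (N + 1), ⋃ i ∈ (Finset.univ : Finset (Fin nT)), ⋃ r ∈ (Finset.univ : Finset (Fin 2)), E N n i r with hbad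
    have hq0 : (0 : ℝ) ≤ 2 ^ (-(ε * (ε / 4))) := by positivity
    have hq1 : (2 : ℝ) ^ (-(ε * (ε / 4))) < 1 := Real.rpow_lt_one_of_one_lt_of_neg (by norm_num) (by nlinarith)
    have hmeas : ∀ N, (gm L).real (bad N) ≤ ((N : ℝ) + 1) * ((nT * 2 * C) * ((2 : ℝ) ^ (-(ε * (ε / 4)))) ^ N) := by
      intro N
      have h0' : 0 ≤ C * ((2 : ℝ) ^ (-(ε * (ε / 4)))) ^ N := by positivity
      refine (measureReal_biUnion_finset_le _ _).trans ?_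
      have h1 : ∀ n ∈ Finset.range (N + 1), (gm L).real (⋃ i ∈ (Finset.univ : Finset (Fin nT)),
          ⋃ r ∈ (Finset.univ : Finset (Fin 2)), E N n i r) ≤ nT * (2 * (C * ((2 : ℝ) ^ (-(ε * (ε / 4)))) ^ N)) := by
        intro n _
        refine (measureReal_biUnion_finset_le _ _).trans ?_
        refine (Finset.sum_le_card_nsmul _ _ (2 * (C * ((2 : ℝ) ^ (-(ε * (ε / 4)))) ^ N)) fun i _ => ?_).trans (le_of_eq ?_)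
        · refine (measureReal_biUnion_finset_le _ _).trans ?_
          refine (Finset.sum_le_card_nsmul _ _ (C * ((2 : ℝ) ^ (-(ε * (ε / 4)))) ^ N) fun r _ => hE1 N n i r).trans (le_of_eq ?_)
          rw [Finset.card_univ, Fintype.card_fin, nsmul_eq_mul]
          norm_num
        · rw [Finset.card_univ, Fintype.card_fin, nsmul_eq_mul]
      refine (Finset.sum_le_card_nsmul _ _ _ h1).trans (le_of_eq ?_)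
      rw [Finset.card_range, nsmul_eq_mul]
      push_cast
      ring
    have hbcan := fin_bc (μ := gm L) bad _ (fin_summable hq0 hq1 (nT * 2 * C)) hmeas
    filter_upwards [hbcan] with w hw hwB hrho
    obtain ⟨N₁, hN₁⟩ := eventually_atTop.1 hw
    refine sum_blocks h0 hp hε hε1 he1 (by linarith) he2 he2' hCt b hb1 hbc w hrho (hbt · w hwB) (N₁ := max N₀ N₁) ?_
    intro N hN n i r hr h1 h2 R hR c
    have hN0 : N₀ ≤ N := (le_max_left _ _).trans hN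
    have hNN : N₁ ≤ N := (le_max_right _ _).trans hN
    have hnN : n ∈ Finset.range (N + 1) := by
      rw [Finset.mem_range]
      have h3 : (2 : ℝ) ^ (n + r) ≤ 2 ^ N := by
        refine h2.trans ?_
        calc ((2 : ℝ) ^ N) ^ (1 / 2 + e2) ≤ ((2 : ℝ) ^ N) ^ (1 : ℝ) :=
              Real.rpow_le_rpow_of_exponent_le (one_le_pow₀ (by norm_num)) (by linarith)
          _ = 2 ^ N := Real.rpow_one _
      have h4 : n + r ≤ N := (pow_le_pow_iff_right₀ (by norm_num : (1 : ℝ) < 2)).1 h3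
      omega
    have hnot : w ∉ E N n i ⟨r, hr⟩ := by
      intro hcon
      apply hN₁ N hNN
      simp only [hbad, mem_iUnion]
      exact ⟨n, hnN, i, Finset.mem_univ _, ⟨r, hr⟩, Finset.mem_univ _, hcon⟩
    exact hE2 N n i ⟨r, hr⟩ hN0 ⟨h1, h2⟩ w hnot hwB R hR c
  have hall := ae_all_iff.2 hmain
  filter_upwards [hall] with w hw hS
  exact hw ⌈‖w‖⌉₊ (Nat.le_ceil _) hS

end Pool.Agent.Helper22.AD
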